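import Pool.Agent.H75R3.PropA3

namespace Pool.Agent.Results.MP_e9a5f2_an.ConditionalPropertyA

universe u

/-- `(e, f)` is a semi-normalized Markushevich basis: the `e n` have dense linear span, the `f n`
are biorthogonal to them and separate points, and `sup_n max(‖e n‖, ‖f n‖) < ∞`. -/
structure IsBasis {𝕜 : Type u} [RCLike 𝕜] {X : Type u} [NormedAddCommGroup X] [NormedSpace 𝕜 X]
    (e : ℕ → X) (f : ℕ → X →L[𝕜] 𝕜) : Prop where
  dense : closure ((Submodule.span 𝕜 (Set.range e) : Submodule 𝕜 X) : Set X) = Set.univ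
  biorthogonal : ∀ n j, f n (e j) = if n = j then 1 else 0
  total : ∀ x : X, (∀ n, f n x = 0) → x = 0
  bounded : ∃ C : ℝ, ∀ n, ‖e n‖ ≤ C ∧ ‖f n‖ ≤ C

/-- Property (A) of the basis `(e, f)`. -/
def PropertyA {𝕜 : Type u} [RCLike 𝕜] {X : Type u} [NormedAddCommGroup X] [NormedSpace 𝕜 X]
    (e : ℕ → X) (f : ℕ → X →L[𝕜] 𝕜) : Prop :=
  ∀ (x : X) (A B : Finset ℕ) (ε η : ℕ → 𝕜),
    (∀ n, f n x ≠ 0 → ‖f n x‖ ≤ 1) → A.card = B.card → Disjoint A B →
    (∀ n, f n x ≠ 0 → n ∉ A ∧ n ∉ B) →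
    (∀ n ∈ A, ‖ε n‖ = 1) → (∀ n ∈ B, ‖η n‖ = 1) →
    ‖x + ∑ n ∈ A, ε n • e n‖ = ‖x + ∑ n ∈ B, η n • e n‖

/-- For every `x`, the series `∑ n, f n x • e n` converges unconditionally to `x`. -/
def IsUnconditional {𝕜 : Type u} [RCLike 𝕜] {X : Type u} [NormedAddCommGroup X]
    [NormedSpace 𝕜 X] (e : ℕ → X) (f : ℕ → X →L[𝕜] 𝕜) : Prop :=
  ∀ x : X, HasSum (fun n => f n x • e n) x

/-- Over `ℝ` and over `ℂ`, there is a Banach space with a semi-normalized Markushevich basis which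
has Property (A) but is not unconditional. The basis is even a Schauder basis. -/
theorem result (𝕜 : Type u) [RCLike 𝕜] :
    ∃ (X : Type u) (_ : NormedAddCommGroup X) (_ : NormedSpace 𝕜 X) (_ : CompleteSpace X)
      (e : ℕ → X) (f : ℕ → X →L[𝕜] 𝕜),
      IsBasis e f ∧ PropertyA e f ∧
      (∀ x : X, Filter.Tendsto (fun N : ℕ => ∑ n ∈ Finset.range N, f n x • e n) Filter.atTop
        (nhds x)) ∧
      ¬ IsUnconditional e f := by
  classical
  refine ⟨H75R3.PropA.X 𝕜, inferInstance, inferInstance, inferInstance, H75R3.PropA.e 𝕜,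
    H75R3.PropA.f 𝕜, ?_, ?_, H75R3.PropA.schauder, H75R3.PropA.not_unconditional⟩
  · exact
      { dense := H75R3.PropA.dense_span.closure_eq
        biorthogonal := H75R3.PropA.f_e
        total := H75R3.PropA.total
        bounded := ⟨1, fun n => ⟨H75R3.PropA.e_norm_le n, H75R3.PropA.f_norm_le n⟩⟩ }
  · intro x A B ε η hx hcard hAB hsupp hε hη
    have hx' : ∀ j, ‖H75R3.PropA.f 𝕜 j x‖ ≤ 1 := by
      intro j
      by_cases h : H75R3.PropA.f 𝕜 j x = 0
      · rw [h, norm_zero]; exact zero_le_one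
      · exact hx j h
    have hA : ∀ n ∈ A, H75R3.PropA.f 𝕜 n x = 0 := fun n hn => by
      by_contra h
      exact (hsupp n h).1 hn
    have hB : ∀ n ∈ B, H75R3.PropA.f 𝕜 n x = 0 := fun n hn => by
      by_contra h
      exact (hsupp n h).2 hn
    exact le_antisymm
      (H75R3.PropA.propA_le B.card x A B ε η hx' hcard rfl hAB hA hB hε hη)
      (H75R3.PropA.propA_le B.card x B A η ε hx' rfl hcard hAB.symm hB hA hη hε)

end Pool.Agent.Results.MP_e9a5f2_an.ConditionalPropertyA
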